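import Pool.Agent.helper82.CH.SpecN
import Pool.Agent.helper17.CH.NCH

/-!
# Project CH (MP_2e0e07_nt), row COP: an ideal is prime to `(m)` iff its norm is prime to `m`
-/

set_option autoImplicit false

open NumberField Complex Pool.Agent.UN

namespace Pool.Agent.CH

theorem COP : COP_stmt := by
  intro F _ _ m a _ ha
  exact ⟨NCH_cop m a ha, NCH_cop' m a⟩

end Pool.Agent.CH
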