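import Pool.Agent.helper82.CH.SpecN

/-!
# Project CH (MP_2e0e07_nt), row EPS: the entire functions of the system, with uniform bounds
-/

set_option autoImplicit false

open NumberField Complex Pool.Agent.UN

namespace Pool.Agent.CH

section

variable (F : Type) [Field F] [NumberField F]

theorem EPS_Dc : 1 ≤ Dc F := by
  unfold Dc
  have h1 : (1 : ℤ) ≤ |NumberField.discr F| := Int.one_le_abs (NumberField.discr_ne_zero F)
  exact_mod_cast h1

theorem EPS_q0 (m : ℕ) (hm : 0 < m) : Ideal.span {((m : ℕ) : 𝓞 F)} ≠ ⊥ := by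
  rw [Ne, Ideal.span_singleton_eq_bot]
  exact_mod_cast hm.ne'

theorem EPS_Nmq (m n : ℕ) (hm : 0 < m) (hn : Module.finrank ℚ F ≤ n) : Nm (Ideal.span {((m : ℕ) : 𝓞 F)}) ≤ (m : ℝ) ^ n := by
  unfold Nm
  have h1 : Ideal.absNorm (Ideal.span {((m : ℕ) : 𝓞 F)}) = m ^ Module.finrank ℚ F := by
    rw [Ideal.absNorm_span_singleton]
    have h2 : ((m : ℕ) : 𝓞 F) = algebraMap ℤ (𝓞 F) (m : ℤ) := by simp
    rw [h2, Algebra.norm_algebraMap, RingOfIntegers.rank, Int.natAbs_pow, Int.natAbs_natCast]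
  rw [h1]
  push_cast
  exact pow_le_pow_right₀ (by exact_mod_cast hm) hn

theorem EPS_Nmpos (f : Ideal (𝓞 F)) (hf : f ≠ ⊥) : 1 ≤ Nm f := by
  unfold Nm
  have h1 : Ideal.absNorm f ≠ 0 := by
    rw [Ne, Ideal.absNorm_eq_zero_iff]
    exact hf
  exact_mod_cast Nat.one_le_iff_ne_zero.2 h1

theorem EPS_Nmle (f q : Ideal (𝓞 F)) (hq : q ≠ ⊥) (h : q ≤ f) : Nm f ≤ Nm q := by
  unfold Nm
  have h1 : Ideal.absNorm f ∣ Ideal.absNorm q := Ideal.absNorm_dvd_absNorm_of_le h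
  have h2 : Ideal.absNorm q ≠ 0 := by
    rw [Ne, Ideal.absNorm_eq_zero_iff]
    exact hq
  exact_mod_cast Nat.le_of_dvd (Nat.pos_of_ne_zero h2) h1

theorem EPS_cm (f : Ideal (𝓞 F)) (χ : Ideal (𝓞 F) → ℂ) (τ : InfinitePlace F → ℝ) (k : InfinitePlace F → ℤ)
    (h : HCharG f χ τ k) : CM χ := by
  refine ⟨h.bot, h.one, h.mul, fun a => ?_⟩
  by_cases h0 : a = ⊥
  · rw [h0, h.bot, norm_zero]
    exact zero_le_one
  by_cases h1 : a ⊔ f = ⊤
  · exact (h.unit a h0 h1).le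
  · rw [h.zero a h1, norm_zero]
    exact zero_le_one

end

/-- the numerical part -/
theorem EPS_num (B C1 C d w l x y : ℝ) (hB : 0 ≤ B) (hC1 : 1 ≤ C1) (hC : C1 * (1 + B) + B ≤ C) (hd : 1 ≤ d) (hw : 0 ≤ w) (hl : 0 ≤ l)
    (hx : x ≤ Real.exp B ^ (1 + w)) (hx0 : 0 ≤ x) (N : ℝ) (hN1 : 1 ≤ N) (hN : N ≤ Real.exp B)
    (hy : y ≤ (d * N) ^ (C1 * (1 + w)) * Real.exp (C1 * (1 + w) * l)) (hy0 : 0 ≤ y) :
    x * y ≤ Real.exp (C * (1 + w) * (1 + Real.log d + l)) := by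
  have hd0 : 0 < d := by linarith
  have hN0 : 0 < N := by linarith
  have hld : 0 ≤ Real.log d := Real.log_nonneg hd
  have hlN : Real.log N ≤ B := by
    have := Real.log_le_log hN0 hN
    rwa [Real.log_exp] at this
  have h1 : Real.exp B ^ (1 + w) = Real.exp (B * (1 + w)) := by rw [← Real.exp_mul]
  have h2 : (d * N) ^ (C1 * (1 + w)) = Real.exp ((Real.log d + Real.log N) * (C1 * (1 + w))) := by
    rw [Real.rpow_def_of_pos (mul_pos hd0 hN0), Real.log_mul hd0.ne' hN0.ne']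
  rw [h1] at hx
  rw [h2, ← Real.exp_add] at hy
  have h3 : x * y ≤ Real.exp (B * (1 + w)) * Real.exp ((Real.log d + Real.log N) * (C1 * (1 + w)) + C1 * (1 + w) * l) :=
    mul_le_mul hx hy hy0 (Real.exp_pos _).le
  refine h3.trans ?_
  rw [← Real.exp_add, Real.exp_le_exp]
  have hw1 : 0 ≤ 1 + w := by linarith
  have h4 : B + C1 * (Real.log d + Real.log N) + C1 * l ≤ C * (1 + Real.log d + l) := by
    have h5 : C1 * Real.log N ≤ C1 * B := mul_le_mul_of_nonneg_left hlN (by linarith)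
    have h6 : (C1 * (1 + B) + B) * (1 + Real.log d + l) ≤ C * (1 + Real.log d + l) := mul_le_mul_of_nonneg_right hC (by linarith)
    have h7 : 0 ≤ C1 * B := by positivity
    have h8 : 0 ≤ C1 * B * (Real.log d + l) := by positivity
    have h9 : 0 ≤ B * (Real.log d + l) := by positivity
    nlinarith
  have h10 := mul_le_mul_of_nonneg_left h4 hw1
  linarith

open Classical in
theorem EPS (hNCH : NCH_stmt) (hMAX : MAX_stmt) (hNTL : NTL_stmt) (hTSL : TSL_stmt) (hHLE : HLE_stmt) (hNCM : NCM_stmt)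
    (hEUL : EUL_stmt) (hZM2 : ZM2_stmt) (hHLZE : HLZE_stmt) (hUBL : UBL_stmt) (hUBZ : UBZ_stmt) : EPS_stmt := by
  intro n m hm
  obtain ⟨C1, hC1, hL1⟩ := hUBL n
  obtain ⟨C2, hC2, hZ1⟩ := hUBZ n
  set B : ℝ := n * Real.log m with hB
  have hmr : (1 : ℝ) ≤ (m : ℝ) := by exact_mod_cast hm
  have hB0 : 0 ≤ B := mul_nonneg (Nat.cast_nonneg _) (Real.log_nonneg hmr)
  have hexpB : Real.exp B = (m : ℝ) ^ n := by
    rw [hB, Real.exp_nat_mul, Real.exp_log (by linarith)]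
  have hC1B : 0 ≤ C1 * B := mul_nonneg (by linarith) hB0
  have hC2B : 0 ≤ C2 * B := mul_nonneg (by linarith) hB0
  refine ⟨C1 * (1 + B) + C2 * (1 + B) + B, by nlinarith, ?_⟩
  intro F _ _ ψ hn
  have hq0 := EPS_q0 F m hm
  have hqN := EPS_Nmq F m n hm hn
  have hqN1 := EPS_Nmpos F _ hq0
  rw [← hexpB] at hqN
  have hH := hNCH F m ψ hm
  have hlog : ∀ s : ℂ, 0 ≤ Real.log (2 + ‖s‖) := fun s => Real.log_nonneg (by linarith [norm_nonneg s])
  have hRb : ∀ s : ℂ, Nm (Ideal.span {((m : ℕ) : 𝓞 F)}) ^ (1 + ‖s‖) ≤ Real.exp B ^ (1 + ‖s‖) := fun s =>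
    Real.rpow_le_rpow (by linarith) hqN (by linarith [norm_nonneg s])
  by_cases hT : Triv F ψ
  · obtain ⟨Z, hZ⟩ := hHLZE F
    have htc : CM (tc F) := (hNCM F m ψ).2.2.2.1
    obtain ⟨R, hR1, hR2, hR3⟩ := hEUL F (Ideal.span {((m : ℕ) : 𝓞 F)}) (tc F) (nch F ψ) hq0 htc (hNCM F m ψ).1
      (fun a ha h => by
        rw [hT a ha h]
        unfold tc
        rw [if_neg ha]) (fun a h => hH.zero a h)
    refine ⟨fun s => R s * Z s, hR1.mul hZ.entire, fun s hs => ?_, fun s => ?_, fun _ => ?_⟩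
    · simp only
      rw [if_pos hT, hR2 s hs, hZ.series s hs, hTSL F (tc F) htc s hs]
      ring
    · simp only
      rw [norm_mul]
      refine EPS_num B C2 _ (Dc F) ‖s‖ (Real.log (2 + ‖s‖)) ‖R s‖ ‖Z s‖ hB0 hC2 (by nlinarith) (EPS_Dc F) (norm_nonneg _) (hlog s)
        ((hR3 s).trans (hRb s)) (norm_nonneg _) 1 le_rfl (Real.one_le_exp hB0) ?_ (norm_nonneg _)
      rw [mul_one]
      exact hZ1 F Z hn hZ s
    · simp only
      rw [hZM2 F Z hZ, mul_zero]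
  · obtain ⟨f, χ, hqf, hG, hχ⟩ := hMAX F (Ideal.span {((m : ℕ) : 𝓞 F)}) (nch F ψ) hH
    have hCM : CM χ := EPS_cm F f χ 0 0 hG
    obtain ⟨L, hL⟩ := hHLE F f χ 0 0 hG (hNTL F m ψ χ hm hχ hT)
    obtain ⟨R, hR1, hR2, hR3⟩ := hEUL F (Ideal.span {((m : ℕ) : 𝓞 F)}) χ (nch F ψ) hq0 hCM (hNCM F m ψ).1
      (fun a ha h => (hχ a ha h).symm) (fun a h => hH.zero a h)
    refine ⟨fun s => R s * L s, hR1.mul hL.entire, fun s hs => ?_, fun s => ?_, fun h => absurd h hT⟩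
    · simp only
      rw [if_neg hT, one_mul, hR2 s hs, hL.series s hs, hTSL F χ hCM s hs]
    · simp only
      rw [norm_mul]
      exact EPS_num B C1 _ (Dc F) ‖s‖ (Real.log (2 + ‖s‖)) ‖R s‖ ‖L s‖ hB0 hC1 (by nlinarith) (EPS_Dc F) (norm_nonneg _) (hlog s)
        ((hR3 s).trans (hRb s)) (norm_nonneg _) (Nm f) (EPS_Nmpos F f hG.f0) ((EPS_Nmle F f _ hq0 hqf).trans hqN)
        (hL1 F f χ L hn hG hL s) (norm_nonneg _)

end Pool.Agent.CH
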