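import Pool.Agent.helper17.CH.SpecV

/-!
Row CHS of the project CH (MP_5628fe_nt).
-/

set_option autoImplicit false

namespace Pool.Agent.CH

open Finset Filter

theorem CHS_norm (t x : ℝ) : ‖nit t x‖ = 1 := by
  unfold nit
  exact Complex.norm_exp_ofReal_mul_I _

theorem CHS_mul (t x y : ℝ) (hx : 0 < x) (hy : 0 < y) : nit t (x * y) = nit t x * nit t y := by
  unfold nit
  rw [← Complex.exp_add, Real.log_mul hx.ne' hy.ne']
  congr 1
  push_cast
  ring

theorem CHS_large (N : ℕ) : ∃ x₀ : ℝ, ∀ x : ℝ, x₀ ≤ x →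
    2 ≤ Real.log x ∧ 2 * Real.log x ^ N ≤ Real.exp (dl x / 2) := by
  have h1 : ∀ᶠ w : ℝ in atTop, 2 * w ^ ((N : ℝ) * (20 / 19)) ≤ Real.exp (w / 2) := by
    have h2 := isLittleO_rpow_exp_pos_mul_atTop ((N : ℝ) * (20 / 19)) (b := 1 / 2) (by norm_num)
    have h3 := h2.bound (c := 1 / 2) (by norm_num)
    filter_upwards [h3, eventually_ge_atTop 0] with w hw hw0
    rw [Real.norm_of_nonneg (Real.rpow_nonneg hw0 _), Real.norm_of_nonneg (Real.exp_pos _).le] at hw
    have e : (1 / 2 : ℝ) * w = w / 2 := by ring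
    rw [e] at hw
    linarith
  have h2 : Tendsto (fun x : ℝ => dl x) atTop atTop := by
    unfold dl
    exact (tendsto_rpow_atTop (by norm_num)).comp Real.tendsto_log_atTop
  have h3 := h2.eventually h1
  have h4 : ∀ᶠ x : ℝ in atTop, 2 ≤ Real.log x := Real.tendsto_log_atTop.eventually_ge_atTop 2
  obtain ⟨x₀, hx₀⟩ := Filter.eventually_atTop.1 (h3.and h4)
  refine ⟨x₀, fun x hx => ?_⟩
  obtain ⟨h5, h6⟩ := hx₀ x hx
  refine ⟨h6, ?_⟩
  have h7 : (dl x) ^ ((N : ℝ) * (20 / 19)) = Real.log x ^ N := by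
    unfold dl
    rw [← Real.rpow_mul (by linarith), ← Real.rpow_natCast]
    congr 1
    ring
  rw [h7] at h5
  exact h5

theorem CHS_fib (q N a : ℕ) (hq : 1 ≤ q) (ha1 : 1 ≤ a) (ha : a ≤ q) (haN : a ≤ N) :
    ((Ioc 0 N).filter fun n => (n - 1) % q + 1 = a)
      = (range ((N - a) / q + 1)).image fun m => q * m + a := by
  ext n
  simp only [mem_filter, mem_Ioc, mem_image, mem_range]
  constructor
  · rintro ⟨⟨h1, h2⟩, h3⟩
    have h4 := Nat.div_add_mod (n - 1) q
    refine ⟨(n - 1) / q, ?_, by omega⟩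
    have h5 : q * ((n - 1) / q) ≤ N - a := by omega
    have h6 : (n - 1) / q ≤ (N - a) / q := by
      rw [Nat.le_div_iff_mul_le (by omega)]
      linarith
    omega
  · rintro ⟨m, hm, rfl⟩
    have h1 : m ≤ (N - a) / q := by omega
    have h2 : m * q ≤ N - a := (Nat.le_div_iff_mul_le (by omega)).1 h1
    have h3 : q * m ≤ N - a := by linarith
    refine ⟨⟨by omega, by omega⟩, ?_⟩
    have h4 : q * m + a - 1 = q * m + (a - 1) := by omega
    rw [h4, Nat.mul_add_mod, Nat.mod_eq_of_lt (by omega)]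
    omega

/-- Row CHS. -/
theorem CHS (h1 : ES_stmt) : CHS_stmt := by
  intro A B K
  obtain ⟨B₁, x₁, hES⟩ := h1 (A + 1) K
  obtain ⟨x₂, hx₂⟩ := CHS_large (A + B)
  refine ⟨B₁, max x₁ x₂, ?_⟩
  intro x hx q hq hqB χ t u ht1 ht2 hu
  have hx1 := (le_max_left _ _).trans hx
  obtain ⟨hL2, hLe⟩ := hx₂ x ((le_max_right _ _).trans hx)
  set L : ℝ := Real.log x with hL
  have hL1 : 1 ≤ L := by linarith
  have hL0 : 0 < L := by linarith
  set E : ℝ := Real.exp (dl x / 2) with hE
  have hEE : Real.exp (dl x) = E * E := by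
    rw [hE, ← Real.exp_add]
    congr 1
    ring
  rw [hEE] at hu
  have hLA1 : 1 ≤ L ^ A := one_le_pow₀ hL1
  have hLB1 : 1 ≤ L ^ B := one_le_pow₀ hL1
  have hLAB : L ^ (A + B) = L ^ A * L ^ B := pow_add _ _ _
  rw [hLAB] at hLe
  have hE2 : 2 * L ^ B ≤ E := by nlinarith
  have hE2' : 2 ≤ E := by linarith
  have hq0 : (0 : ℝ) < q := by
    have : (1 : ℝ) ≤ q := by exact_mod_cast hq
    linarith
  have hu0 : 0 < u := by nlinarith
  have hquR : (q : ℝ) ≤ u := by nlinarith
  set N : ℕ := ⌊u⌋₊ with hN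
  have hqN : q ≤ N := Nat.le_floor hquR
  -- the inner sums
  have hinner : ∀ a ∈ Icc 1 q,
      ‖∑ n ∈ (Ioc 0 N).filter (fun n => (n - 1) % q + 1 = a), χ n * nit t n‖
        ≤ 1 + (u / q) / L ^ (A + 1) := by
    intro a ha
    rw [mem_Icc] at ha
    obtain ⟨ha1, haq⟩ := ha
    rw [CHS_fib q N a hq ha1 haq (haq.trans hqN), Finset.sum_image (by
      intro m _ m' _ h
      have h' : q * m + a = q * m' + a := h
      have h2 : q * m = q * m' := by omega
      exact Nat.eq_of_mul_eq_mul_left (by omega) h2)]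
    have ha0 : (0 : ℝ) < a := by
      have : (1 : ℝ) ≤ a := by exact_mod_cast ha1
      linarith
    have haq' : (a : ℝ) ≤ q := by exact_mod_cast haq
    have hterm : ∀ m : ℕ, χ ((q * m + a : ℕ) : ZMod q) * nit t ((q * m + a : ℕ) : ℝ)
        = (χ (a : ZMod q) * nit t q) * nit t ((m : ℝ) + a / q) := by
      intro m
      have e1 : ((q * m + a : ℕ) : ZMod q) = (a : ZMod q) := by
        push_cast
        rw [ZMod.natCast_self, zero_mul, zero_add]
      have e2 : ((q * m + a : ℕ) : ℝ) = (q : ℝ) * ((m : ℝ) + a / q) := by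
        push_cast
        field_simp
      rw [e1, e2, CHS_mul t _ _ hq0 (by positivity)]
      ring
    have hsum : ∑ m ∈ range ((N - a) / q + 1), χ ((q * m + a : ℕ) : ZMod q)
          * nit t ((q * m + a : ℕ) : ℝ)
        = (χ (a : ZMod q) * nit t q) * (nit t ((0 : ℕ) + a / q)
          + ∑ m ∈ Ioc 0 ((N - a) / q), nit t ((m : ℝ) + a / q)) := by
      rw [Finset.sum_congr rfl fun m _ => hterm m, ← Finset.mul_sum]
      congr 1
      rw [Finset.sum_range_succ' , add_comm]
      congr 1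
      rw [← Finset.sum_Ioc_consecutive _ (Nat.zero_le 0) (Nat.zero_le _), Finset.Ioc_self,
        Finset.sum_empty, zero_add]
      refine Finset.sum_bij (fun m _ => m + 1) ?_ ?_ ?_ ?_
      · intro m hm
        rw [mem_range] at hm
        rw [mem_Ioc]
        omega
      · intro m _ m' _ h
        omega
      · intro m hm
        rw [mem_Ioc] at hm
        exact ⟨m - 1, by rw [mem_range]; omega, by omega⟩
      · intro m _
        rfl
    have hu' : E ≤ (u - a) / q := by
      rw [le_div_iff₀ hq0]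
      nlinarith
    have hfl : (N - a) / q = ⌊(u - a) / q⌋₊ := by
      rw [Nat.floor_div_natCast, Nat.floor_sub_natCast]
    have hes := hES x hx1 t ((u - a) / q) (a / q) ht1 ht2 hu' (by positivity)
      ((div_le_one hq0).2 haq')
    rw [← hfl] at hes
    have hs2 := hsum
    push_cast at hs2 ⊢
    rw [hs2, norm_mul, norm_mul, CHS_norm, mul_one]
    have hχ : ‖χ (a : ZMod q)‖ ≤ 1 := DirichletCharacter.norm_le_one χ _
    have hle : (u - a) / q / L ^ (A + 1) ≤ (u / q) / L ^ (A + 1) := by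
      apply div_le_div_of_nonneg_right _ (by positivity)
      apply div_le_div_of_nonneg_right _ hq0.le
      linarith
    calc ‖χ (a : ZMod q)‖ * ‖nit t (0 + a / q) + ∑ m ∈ Ioc 0 ((N - a) / q), nit t ((m : ℝ) + a / q)‖
        ≤ 1 * ‖nit t (0 + a / q) + ∑ m ∈ Ioc 0 ((N - a) / q), nit t ((m : ℝ) + a / q)‖ :=
          mul_le_mul_of_nonneg_right hχ (norm_nonneg _)
      _ ≤ 1 + (u / q) / L ^ (A + 1) := by
          rw [one_mul]
          refine (norm_add_le _ _).trans ?_
          rw [CHS_norm]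
          linarith
  have hsplit : ∑ n ∈ Ioc 0 N, χ n * nit t n
      = ∑ a ∈ Icc 1 q, ∑ n ∈ (Ioc 0 N).filter (fun n => (n - 1) % q + 1 = a), χ n * nit t n := by
    rw [Finset.sum_fiberwise_of_maps_to]
    intro n _
    rw [mem_Icc]
    have := Nat.mod_lt (n - 1) (show 0 < q by omega)
    omega
  rw [hsplit]
  have hb : ‖∑ a ∈ Icc 1 q, ∑ n ∈ (Ioc 0 N).filter (fun n => (n - 1) % q + 1 = a),
      χ n * nit t n‖ ≤ q * (1 + (u / q) / L ^ (A + 1)) := by
    refine (norm_sum_le _ _).trans ?_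
    refine (Finset.sum_le_sum hinner).trans ?_
    rw [Finset.sum_const, Nat.card_Icc, nsmul_eq_mul]
    simp
  refine hb.trans ?_
  have e1 : (q : ℝ) * (1 + (u / q) / L ^ (A + 1)) = q + u / L ^ (A + 1) := by
    field_simp
  rw [e1, pow_succ]
  have h3 : u / (L ^ A * L) ≤ u / L ^ A / 2 := by
    rw [div_div]
    apply div_le_div_of_nonneg_left hu0.le (by positivity)
    exact mul_le_mul_of_nonneg_left hL2 (by positivity)
  have h4 : (q : ℝ) ≤ u / L ^ A / 2 := by
    rw [div_div, le_div_iff₀ (by positivity)]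
    calc (q : ℝ) * (L ^ A * 2) ≤ L ^ B * (L ^ A * 2) := mul_le_mul_of_nonneg_right hqB (by positivity)
      _ = 2 * (L ^ A * L ^ B) := by ring
      _ ≤ E := hLe
      _ ≤ E * E := by nlinarith
      _ ≤ u := hu
  linarith

end Pool.Agent.CH
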